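import Pool.Agent.QDA.StmtsZ

/-!
# QDA, row PTZ: a small relative change of the imaginary part
-/

set_option autoImplicit false

open MeasureTheory ProbabilityTheory Function Filter

open scoped BigOperators NNReal ENNReal Matrix InnerProductSpace Topology

noncomputable section

namespace Pool.Agent.QDA.H30

open Pool.Agent.Anderson hiding box mem_box card_box
open Pool.Agent.Loc Pool.Agent.Mob Pool.Agent.Helper54.Bal
  Pool.Agent.Helper96.EXP Pool.Agent.BED
open Pool.Agent.LE.MN Pool.Agent.LE.CL Pool.Agent.LE.IR Pool.Agent.LE.QD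

variable {d : ℕ}

/-- the mass of a vector in a set of sites -/
def mas (f : L2 d) (P : Site d → Prop) [DecidablePred P] : ℝ :=
  ∑' x : Site d, (if P x then ‖f x‖ ^ 2 else 0)

theorem summable_sq (f : L2 d) : Summable fun x : Site d => ‖f x‖ ^ 2 := by
  have h := lp.memℓp f
  rw [memℓp_gen_iff (by norm_num)] at h
  simpa using h

theorem norm_sq (f : L2 d) : ‖f‖ ^ 2 = ∑' x : Site d, ‖f x‖ ^ 2 := by
  have h := lp.norm_rpow_eq_tsum (p := 2) (by norm_num) f
  simpa using h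

theorem summable_if (f : L2 d) (P : Site d → Prop) [DecidablePred P] :
    Summable fun x : Site d => if P x then ‖f x‖ ^ 2 else 0 := by
  refine Summable.of_nonneg_of_le (fun x => ?_) (fun x => ?_) (summable_sq f)
  · split_ifs
    · positivity
    · exact le_rfl
  · split_ifs
    · exact le_rfl
    · positivity

theorem mas_le (f g : L2 d) (P : Site d → Prop) [DecidablePred P] :
    mas f P ≤ 5 / 4 * mas g P + 5 * ‖f - g‖ ^ 2 := by
  rw [norm_sq (f - g)]
  unfold mas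
  rw [← tsum_mul_left, ← tsum_mul_left,
    ← ((summable_if g P).mul_left (5 / 4 : ℝ)).tsum_add ((summable_sq (f - g)).mul_left 5)]
  refine (summable_if f P).tsum_le_tsum (fun x => ?_)
    (((summable_if g P).mul_left (5 / 4 : ℝ)).add ((summable_sq (f - g)).mul_left 5))
  have h1 : (f - g) x = f x - g x := rfl
  by_cases h : P x
  · rw [if_pos h, if_pos h, h1]
    have h2 : ‖f x‖ ≤ ‖g x‖ + ‖f x - g x‖ := by
      have := norm_add_le (g x) (f x - g x)
      rwa [add_sub_cancel] at this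
    have h3 := norm_nonneg (f x)
    have h4 := norm_nonneg (g x)
    have h5 := norm_nonneg (f x - g x)
    have h6 : ‖f x‖ ^ 2 ≤ (‖g x‖ + ‖f x - g x‖) ^ 2 := pow_le_pow_left₀ h3 h2 2
    nlinarith [sq_nonneg (‖g x‖ - 4 * ‖f x - g x‖)]
  · rw [if_neg h, if_neg h]
    positivity

/-- the comparison, in the abstract form -/
theorem cmpz (V : Site d → ℝ) (E η η' δ : ℝ) (hη : 0 < η) (hη' : 0 < η')
    (hδ1 : δ ≤ 1 / 5) (h : |η - η'| ≤ δ * η') :
    let u := G V (zz η E) (del 0)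
    let u' := G V (zz η' E) (del 0)
    (u' 0).im = η' * ‖u'‖ ^ 2 ∧ (u' 0).im / 2 ≤ (u 0).im ∧ (u 0).im ≤ 2 * (u' 0).im ∧
      η * ‖u - u'‖ ^ 2 ≤ 2 * δ ^ 2 * (u' 0).im ∧ η ≤ 6 / 5 * η' := by
  intro u u'
  have hD : IsRes (G V) := isRes_G V
  have hz : (zz η E).im ≠ 0 := by rw [zz_im]; exact hη.ne'
  have hz' : (zz η' E).im ≠ 0 := by rw [zz_im]; exact hη'.ne'
  have hco : ∀ f : L2 d, ⟪del (0 : Site d), f⟫_ℂ = f 0 := fun f => by
    rw [← coord_apply]
    rfl
  have ha : (u 0).im = η * ‖u‖ ^ 2 := by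
    have := hD.im_inner hz (del (0 : Site d))
    rwa [hco, zz_im] at this
  have hb : (u' 0).im = η' * ‖u'‖ ^ 2 := by
    have := hD.im_inner hz' (del (0 : Site d))
    rwa [hco, zz_im] at this
  have hzz : ‖zz η E - zz η' E‖ = |η - η'| := by
    have : zz η E - zz η' E = ((η - η' : ℝ) : ℂ) * Complex.I := by
      unfold zz
      push_cast
      ring
    rw [this, norm_mul, Complex.norm_I, mul_one, Complex.norm_real, Real.norm_eq_abs]
  have hsub : u - u' = (zz η E - zz η' E) • G V (zz η E) u' := hD.ident_apply hz hz' _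
  have h1 := abs_le.1 h
  have hlo : 4 / 5 * η' ≤ η := by nlinarith
  have hhi : η ≤ 6 / 5 * η' := by nlinarith
  have hn1 : ‖u - u'‖ ≤ |η - η'| * (η⁻¹ * ‖u'‖) := by
    rw [hsub, norm_smul, hzz]
    refine mul_le_mul_of_nonneg_left ?_ (abs_nonneg _)
    have := hD.norm_le' hz u'
    rwa [zz_im, abs_of_pos hη] at this
  have hd0 : ‖u 0 - u' 0‖ ≤ |η - η'| * (‖u‖ * ‖u'‖) := by
    have e1 : u 0 - u' 0 = (zz η E - zz η' E) * ⟪del (0 : Site d), G V (zz η E) u'⟫_ℂ := by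
      rw [← hco u, ← hco u', ← inner_sub_right, hsub, inner_smul_right]
    have e2 : ⟪del (0 : Site d), G V (zz η E) u'⟫_ℂ =
        ⟪G V ((starRingEnd ℂ) (zz η E)) (del (0 : Site d)), u'⟫_ℂ := by
      rw [hD.adj _ (conj_im_ne hz), Complex.conj_conj]
    rw [e1, norm_mul, hzz, e2]
    refine mul_le_mul_of_nonneg_left ((norm_inner_le_norm _ _).trans ?_) (abs_nonneg _)
    rw [hD.norm_conj hz]
  have hnu := norm_nonneg u
  have hnu' := norm_nonneg u'
  have hi : |(u 0).im - (u' 0).im| ≤ |η - η'| * (‖u‖ * ‖u'‖) := by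
    rw [← Complex.sub_im]
    exact (Complex.abs_im_le_norm _).trans hd0
  have hi2 : |(u 0).im - (u' 0).im| ≤ 1 / 10 * (5 / 4 * (u 0).im + (u' 0).im) := by
    refine hi.trans ?_
    have e1 : |η - η'| * (‖u‖ * ‖u'‖) ≤ (1 / 5 * η') * ((‖u‖ ^ 2 + ‖u'‖ ^ 2) / 2) := by
      have e2 : |η - η'| ≤ 1 / 5 * η' := h.trans (mul_le_mul_of_nonneg_right hδ1 hη'.le)
      have e3 : ‖u‖ * ‖u'‖ ≤ (‖u‖ ^ 2 + ‖u'‖ ^ 2) / 2 := by nlinarith [sq_nonneg (‖u‖ - ‖u'‖)]
      exact mul_le_mul e2 e3 (by positivity) (by positivity)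
    refine e1.trans ?_
    rw [ha, hb]
    have e4 : η' * ‖u‖ ^ 2 ≤ 5 / 4 * η * ‖u‖ ^ 2 :=
      mul_le_mul_of_nonneg_right (by linarith) (by positivity)
    nlinarith
  have hi3 := abs_le.1 hi2
  have hb0 : 0 ≤ (u' 0).im := by rw [hb]; positivity
  refine ⟨hb, by linarith, by linarith, ?_, hhi⟩
  have e1 : ‖u - u'‖ ^ 2 ≤ (|η - η'| * (η⁻¹ * ‖u'‖)) ^ 2 := pow_le_pow_left₀ (norm_nonneg _) hn1 2
  have e2 : η * ‖u - u'‖ ^ 2 ≤ η * (|η - η'| * (η⁻¹ * ‖u'‖)) ^ 2 :=
    mul_le_mul_of_nonneg_left e1 hη.le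
  refine e2.trans ?_
  have e3 : η * (|η - η'| * (η⁻¹ * ‖u'‖)) ^ 2 = |η - η'| ^ 2 * ‖u'‖ ^ 2 / η := by
    field_simp
  rw [e3, hb, div_le_iff₀ hη]
  have e4 : |η - η'| ^ 2 ≤ (δ * η') ^ 2 := pow_le_pow_left₀ (abs_nonneg _) h 2
  have e5 : |η - η'| ^ 2 * ‖u'‖ ^ 2 ≤ (δ * η') ^ 2 * ‖u'‖ ^ 2 :=
    mul_le_mul_of_nonneg_right e4 (by positivity)
  refine e5.trans ?_
  have e6 : 0 ≤ δ ^ 2 * η' * ‖u'‖ ^ 2 := by positivity
  nlinarith [mul_le_mul_of_nonneg_left (show η' ≤ 2 * η by linarith) e6]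

theorem ptz : PtzStmt := by
  intro d c ε hc hc1 hε
  refine ⟨min (1 / 5) (c * ε / 4), by positivity, ?_⟩
  intro V E η η' r R hη hη' h hbad
  by_contra hgood
  set δ := min (1 / 5) (c * ε / 4) with hδd
  have hδ0 : 0 < δ := by positivity
  have hδ1 : δ ≤ 1 / 5 := min_le_left _ _
  have hδ2 : δ ≤ c * ε / 4 := min_le_right _ _
  obtain ⟨h1, h2, h3, h4, h5⟩ := cmpz V E η η' δ hη hη' hδ1 h
  unfold BadZ at hgood hbad
  push Not at hgood
  obtain ⟨g1, g2, g3, g4⟩ := hgood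
  set u := G V (zz η E) (del 0)
  set u' := G V (zz η' E) (del 0)
  have hδε : 10 * δ ^ 2 * (u' 0).im ≤ ε / 2 := by
    have e1 : 10 * δ ^ 2 * (u' 0).im ≤ 10 * δ ^ 2 * (1 / c) :=
      mul_le_mul_of_nonneg_left g2 (by positivity)
    have e2 : δ ^ 2 ≤ 1 / 5 * (c * ε / 4) := by
      rw [sq]
      exact mul_le_mul hδ1 hδ2 hδ0.le (by norm_num)
    have e3 : 10 * δ ^ 2 * (1 / c) ≤ 10 * (1 / 5 * (c * ε / 4)) * (1 / c) :=
      mul_le_mul_of_nonneg_right (by linarith) (by positivity)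
    have e4 : 10 * (1 / 5 * (c * ε / 4)) * (1 / c) = ε / 2 := by
      field_simp
      ring
    linarith
  have hmass : ∀ (P : Site d → Prop) [DecidablePred P], η' * mas u' P ≤ ε →
      η * mas u P ≤ 2 * ε := by
    intro P _ hP
    have e1 := mul_le_mul_of_nonneg_left (mas_le u u' P) hη.le
    have e0 : 0 ≤ mas u' P := tsum_nonneg fun x => by
      split_ifs
      · positivity
      · exact le_rfl
    have e2 : η * mas u' P ≤ 6 / 5 * (η' * mas u' P) := by
      have := mul_le_mul_of_nonneg_right h5 e0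
      linarith
    nlinarith
  rcases hbad with hb | hb | hb | hb
  · linarith
  · have : 1 / (c / 2) = 2 * (1 / c) := by
      field_simp
    rw [this] at hb
    linarith
  · have := hmass (fun x => sd 0 x < r) g3
    unfold mas at this
    linarith
  · have := hmass (fun x => R ≤ sd 0 x) g4
    unfold mas at this
    linarith

end Pool.Agent.QDA.H30
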