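import Pool.Agent.QDA.StmtsM
import Pool.Agent.Helper30_QDA.Ptz

/-!
# QDA, row PTM: a small relative change of the imaginary part, the Green function itself
-/

set_option autoImplicit false

open MeasureTheory ProbabilityTheory Function Filter

open scoped BigOperators NNReal ENNReal Matrix InnerProductSpace Topology

noncomputable section

namespace Pool.Agent.QDA.H30

open Pool.Agent.Anderson hiding box mem_box card_box
open Pool.Agent.Loc Pool.Agent.Mob Pool.Agent.Helper54.Bal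
  Pool.Agent.Helper96.EXP Pool.Agent.BED
open Pool.Agent.LE.MN Pool.Agent.LE.CL Pool.Agent.LE.IR Pool.Agent.LE.QD

variable {d : ℕ}

/-- the comparison of the Green functions at the origin -/
theorem cmpd (V : Site d → ℝ) (E η η' δ : ℝ) (hη : 0 < η) (hη' : 0 < η')
    (hδ1 : δ ≤ 1 / 5) (h : |η - η'| ≤ δ * η') :
    ‖G V (zz η E) (del 0) 0 - G V (zz η' E) (del 0) 0‖ ≤
      2 * δ * (G V (zz η' E) (del 0) 0).im := by
  obtain ⟨h1, h2, h3, h4, h5⟩ := cmpz V E η η' δ hη hη' hδ1 h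
  have hδ0 : 0 ≤ δ := by
    have := (abs_nonneg _).trans h
    by_contra hc
    rw [not_le] at hc
    nlinarith [mul_neg_of_neg_of_pos hc hη']
  set u := G V (zz η E) (del 0)
  set u' := G V (zz η' E) (del 0)
  have hD : IsRes (G V) := isRes_G V
  have hz : (zz η E).im ≠ 0 := by rw [zz_im]; exact hη.ne'
  have hz' : (zz η' E).im ≠ 0 := by rw [zz_im]; exact hη'.ne'
  have hco : ∀ f : L2 d, ⟪del (0 : Site d), f⟫_ℂ = f 0 := fun f => by
    rw [← coord_apply]
    rfl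
  have ha : (u 0).im = η * ‖u‖ ^ 2 := by
    have := hD.im_inner hz (del (0 : Site d))
    rwa [hco, zz_im] at this
  have hzz : ‖zz η E - zz η' E‖ = |η - η'| := by
    have : zz η E - zz η' E = ((η - η' : ℝ) : ℂ) * Complex.I := by
      unfold zz
      push_cast
      ring
    rw [this, norm_mul, Complex.norm_I, mul_one, Complex.norm_real, Real.norm_eq_abs]
  have hsub : u - u' = (zz η E - zz η' E) • G V (zz η E) u' := hD.ident_apply hz hz' _
  have hd0 : ‖u 0 - u' 0‖ ≤ |η - η'| * (‖u‖ * ‖u'‖) := by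
    have e1 : u 0 - u' 0 = (zz η E - zz η' E) * ⟪del (0 : Site d), G V (zz η E) u'⟫_ℂ := by
      rw [← hco u, ← hco u', ← inner_sub_right, hsub, inner_smul_right]
    have e2 : ⟪del (0 : Site d), G V (zz η E) u'⟫_ℂ =
        ⟪G V ((starRingEnd ℂ) (zz η E)) (del (0 : Site d)), u'⟫_ℂ := by
      rw [hD.adj _ (conj_im_ne hz), Complex.conj_conj]
    rw [e1, norm_mul, hzz, e2]
    refine mul_le_mul_of_nonneg_left ((norm_inner_le_norm _ _).trans ?_) (abs_nonneg _)
    rw [hD.norm_conj hz]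
  refine hd0.trans ?_
  have h6 := abs_le.1 h
  have hlo : 4 / 5 * η' ≤ η := by nlinarith
  have e1 : |η - η'| * (‖u‖ * ‖u'‖) ≤ δ * η' * ((‖u‖ ^ 2 + ‖u'‖ ^ 2) / 2) := by
    have e3 : ‖u‖ * ‖u'‖ ≤ (‖u‖ ^ 2 + ‖u'‖ ^ 2) / 2 := by nlinarith [sq_nonneg (‖u‖ - ‖u'‖)]
    exact mul_le_mul h e3 (by positivity) (by positivity)
  refine e1.trans ?_
  have e4 : η' * ‖u‖ ^ 2 ≤ 5 / 4 * η * ‖u‖ ^ 2 :=
    mul_le_mul_of_nonneg_right (by linarith) (by positivity)
  have e5 : η' * ((‖u‖ ^ 2 + ‖u'‖ ^ 2) / 2) ≤ 2 * (u' 0).im := by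
    have e6 : η' * ((‖u‖ ^ 2 + ‖u'‖ ^ 2) / 2) = (η' * ‖u‖ ^ 2 + η' * ‖u'‖ ^ 2) / 2 := by ring
    have e7 : 0 ≤ (u' 0).im := by rw [h1]; positivity
    rw [e6, ← h1]
    have e8 : η' * ‖u‖ ^ 2 ≤ 5 / 4 * (u 0).im := by rw [ha]; linarith
    linarith
  calc δ * η' * ((‖u‖ ^ 2 + ‖u'‖ ^ 2) / 2) = δ * (η' * ((‖u‖ ^ 2 + ‖u'‖ ^ 2) / 2)) := by ring
    _ ≤ δ * (2 * (u' 0).im) := mul_le_mul_of_nonneg_left e5 hδ0
    _ = 2 * δ * (u' 0).im := by ring

theorem ptm : PtmStmt := by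
  intro C ε hC hε
  have hCε : 0 < C + ε := by linarith
  refine ⟨min (1 / 5) (ε / (4 * (C + ε))), by positivity, ?_⟩
  intro d V E η η' m r R hm hη hη' h hbad
  by_contra hgood
  set δ := min (1 / 5) (ε / (4 * (C + ε))) with hδd
  have hδ0 : 0 < δ := by positivity
  have hδ1 : δ ≤ 1 / 5 := min_le_left _ _
  have hδ2 : δ * (C + ε) ≤ ε / 4 := by
    have e1 : δ ≤ ε / (4 * (C + ε)) := min_le_right _ _
    have e2 := mul_le_mul_of_nonneg_right e1 hCε.le
    have e3 : ε / (4 * (C + ε)) * (C + ε) = ε / 4 := by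
      field_simp
    linarith
  obtain ⟨h1, h2, h3, h4, h5⟩ := cmpz V E η η' δ hη hη' hδ1 h
  have h6 := cmpd V E η η' δ hη hη' hδ1 h
  unfold BadZM at hgood hbad
  push Not at hgood
  obtain ⟨g1, g3, g4⟩ := hgood
  set u := G V (zz η E) (del 0)
  set u' := G V (zz η' E) (del 0)
  have g2 : (u' 0).im ≤ C + ε := by
    have e1 : (u' 0).im ≤ ‖u' 0‖ := (le_abs_self _).trans (Complex.abs_im_le_norm _)
    have e2 : ‖u' 0‖ ≤ ‖u' 0 - m‖ + ‖m‖ := by
      have := norm_add_le (u' 0 - m) m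
      rwa [sub_add_cancel] at this
    linarith
  have g0 : 0 ≤ (u' 0).im := by rw [h1]; positivity
  have hδb : δ * (u' 0).im ≤ ε / 4 :=
    (mul_le_mul_of_nonneg_left g2 hδ0.le).trans hδ2
  have hδε : 10 * δ ^ 2 * (u' 0).im ≤ ε / 2 := by
    have e1 : 10 * δ ^ 2 * (u' 0).im = 10 * δ * (δ * (u' 0).im) := by ring
    have e2 : 10 * δ * (δ * (u' 0).im) ≤ 2 * (δ * (u' 0).im) :=
      mul_le_mul_of_nonneg_right (by linarith) (by positivity)
    rw [e1]
    linarith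
  have hmass : ∀ (P : Site d → Prop) [DecidablePred P], η' * mas u' P ≤ ε →
      η * mas u P ≤ 2 * ε := by
    intro P _ hP
    have e1 := mul_le_mul_of_nonneg_left (mas_le u u' P) hη.le
    have e0 : 0 ≤ mas u' P := tsum_nonneg fun x => by
      split_ifs
      · positivity
      · exact le_rfl
    have e2 : η * mas u' P ≤ 6 / 5 * (η' * mas u' P) := by
      have := mul_le_mul_of_nonneg_right h5 e0
      linarith
    nlinarith
  rcases hbad with hb | hb | hb
  · have e1 : ‖u 0 - m‖ ≤ ‖u 0 - u' 0‖ + ‖u' 0 - m‖ := by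
      have := norm_add_le (u 0 - u' 0) (u' 0 - m)
      rwa [sub_add_sub_cancel] at this
    have e2 : 2 * δ * (u' 0).im = 2 * (δ * (u' 0).im) := by ring
    linarith
  · have := hmass (fun x => sd 0 x < r) g3
    unfold mas at this
    linarith
  · have := hmass (fun x => R ≤ sd 0 x) g4
    unfold mas at this
    linarith

end Pool.Agent.QDA.H30
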