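import Pool.Agent.Helper30_QDA.Ptz
import Pool.Agent.Helper34_QDA.Trq

/-!
# QDA: from the event `EZ` of row TRQ to `BadZ`
-/

set_option autoImplicit false

open MeasureTheory ProbabilityTheory Function Filter

open scoped BigOperators NNReal ENNReal Matrix InnerProductSpace Topology

noncomputable section

namespace Pool.Agent.QDA.H30

open Pool.Agent.Anderson hiding box mem_box card_box
open Pool.Agent.Loc Pool.Agent.Mob Pool.Agent.Helper54.Bal
  Pool.Agent.Helper96.EXP Pool.Agent.BED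
open Pool.Agent.LE.MN Pool.Agent.LE.CL Pool.Agent.LE.IR Pool.Agent.LE.QD

variable {d : ℕ}

theorem ofReal_mas (f : L2 d) (η : ℝ) (hη : 0 ≤ η) (P : Site d → Prop) [DecidablePred P] :
    ∑' y : Site d, (if P y then ENNReal.ofReal (η * ‖f y‖ ^ 2) else 0) =
      ENNReal.ofReal (η * mas f P) := by
  unfold mas
  rw [← tsum_mul_left, ENNReal.ofReal_tsum_of_nonneg]
  · refine tsum_congr fun y => ?_
    split_ifs
    · rfl
    · simp
  · intro y
    split_ifs
    · positivity
    · simp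
  · exact (summable_if f P).mul_left η

open Classical in
/-- the event of TRQ excludes `BadZ` -/
theorem not_badZ_of_EZ {V : Site d → ℝ} {E η c ε : ℝ} {r R : ℕ} (hη : 0 < η) (hε : 0 ≤ ε)
    (h : V ∈ Pool.Agent.QDA.H34.EZ d E η c ε (fun y => sd 0 y < r) (fun y => R ≤ sd 0 y)) :
    ¬ BadZ V E η (c / 2) (3 * ε) r R := by
  obtain ⟨h1, h2, h3, h4⟩ := h
  have h3' : η * ∑' x : Site d, (if sd 0 x < r then ‖G V (zz η E) (del 0) x‖ ^ 2 else 0) ≤
      3 * ε := by
    have e := ofReal_mas (G V (zz η E) (del 0)) η hη.le (fun y => sd 0 y < r)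
    rw [← ENNReal.ofReal_le_ofReal_iff (by positivity)]
    unfold mas at e


    rw [← e]
    refine le_trans (le_of_eq ?_) h3
    refine tsum_congr fun y => ?_
    split_ifs <;> rfl
  have h4' : η * ∑' x : Site d, (if R ≤ sd 0 x then ‖G V (zz η E) (del 0) x‖ ^ 2 else 0) ≤
      3 * ε := by
    have e := ofReal_mas (G V (zz η E) (del 0)) η hη.le (fun y => R ≤ sd 0 y)
    rw [← ENNReal.ofReal_le_ofReal_iff (by positivity)]
    unfold mas at e
    rw [← e]
    refine le_trans (le_of_eq ?_) h4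
    refine tsum_congr fun y => ?_
    split_ifs <;> rfl
  have h5 : 1 / (c / 2) = 2 / c := by
    rw [one_div, inv_div]
  unfold BadZ
  rw [h5]
  push Not
  exact ⟨h1, h2, h3', h4'⟩

open Classical in
/-- both steps together: the event of TRQ at `η'` excludes `BadZ` at all near `η` -/
theorem ptz_EZ (d : ℕ) (c ε : ℝ) (hc : 0 < c) (hc1 : c ≤ 1) (hε : 0 < ε) : ∃ δ : ℝ, 0 < δ ∧
    ∀ (V : Site d → ℝ) (E η η' : ℝ) (r R : ℕ), 0 < η → 0 < η' → |η - η'| ≤ δ * η' →
      V ∈ Pool.Agent.QDA.H34.EZ d E η' c ε (fun y => sd 0 y < r) (fun y => R ≤ sd 0 y) →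
      ¬ BadZ V E η (c / 4) (6 * ε) r R := by
  obtain ⟨δ, hδ, h⟩ := ptz d (c / 2) (3 * ε) (by positivity) (by linarith) (by positivity)
  refine ⟨δ, hδ, ?_⟩
  intro V E η η' r R hη hη' hh hE hb
  apply not_badZ_of_EZ hη' hε.le hE
  apply h V E η η' r R hη hη' hh
  have e1 : c / 2 / 2 = c / 4 := by ring
  have e2 : 2 * (3 * ε) = 6 * ε := by ring
  rw [e1, e2]
  exact hb

end Pool.Agent.QDA.H30
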