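import Pool.Agent.Helper30_QDA.Ptm
import Pool.Agent.Helper76_QDA.Tav1
import Pool.Agent.LE.StmtsQY

/-!
# QDA, row QLM (LOWM): the times `|σ|^{-3} ≤ T ≤ exp (|σ|^{-θ})`, from the local law and the moments
-/

set_option autoImplicit false

open MeasureTheory ProbabilityTheory Function Filter

open scoped BigOperators NNReal ENNReal Matrix InnerProductSpace Topology

noncomputable section

namespace Pool.Agent.QDA.H30

open Pool.Agent.Anderson hiding box mem_box card_box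
open Pool.Agent.Loc Pool.Agent.Mob Pool.Agent.Helper54.Bal
  Pool.Agent.Helper96.EXP Pool.Agent.BED
open Pool.Agent.LE.MN Pool.Agent.LE.CL Pool.Agent.LE.IR Pool.Agent.LE.QD

variable {d : ℕ}

theorem small_pow (θ e : ℝ) (hθ : 0 < θ) (he : 0 < e) :
    ∃ s₀ : ℝ, 0 < s₀ ∧ ∀ s : ℝ, 0 < s → s ≤ s₀ → s ^ θ ≤ e := by
  refine ⟨e ^ (1 / θ), by positivity, fun s hs h => ?_⟩
  have h1 := Real.rpow_le_rpow hs.le h hθ.le
  rw [← Real.rpow_mul he.le, one_div, inv_mul_cancel₀ hθ.ne', Real.rpow_one] at h1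
  exact h1

theorem zz_mk (η E : ℝ) : zz η E = (⟨E, η⟩ : ℂ) := by
  apply Complex.ext <;> simp [zz]

theorem ofReal_mas' (f : L2 d) (η : ℝ) (hη : 0 ≤ η) (P : Site d → Prop) [DecidablePred P] :
    ∑' y : Site d, (if P y then ENNReal.ofReal (η * ‖f y‖ ^ 2) else 0) =
      ENNReal.ofReal (η * mas f P) := by
  unfold mas
  rw [← tsum_mul_left, ENNReal.ofReal_tsum_of_nonneg]
  · refine tsum_congr fun y => ?_
    split_ifs
    · rfl
    · simp
  · intro y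
    split_ifs
    · positivity
    · simp
  · exact (summable_if f P).mul_left η

/-- Markov -/
theorem markov {Ω : Type} [MeasurableSpace Ω] {μ : Measure Ω} {Φ : Ω → ℝ≥0∞} (hΦ : Measurable Φ)
    {A B : ℝ} (hB : 0 < B) (h : ∫⁻ V, Φ V ∂μ ≤ ENNReal.ofReal A) {S : Set Ω}
    (hS : ∀ V ∈ S, ENNReal.ofReal B ≤ Φ V) : μ S ≤ ENNReal.ofReal (A / B) := by
  have h1 : μ S ≤ μ {V | ENNReal.ofReal B ≤ Φ V} := measure_mono fun V hV => hS V hV
  have h2 := meas_ge_le_lintegral_div (μ := μ) hΦ.aemeasurable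
    (ENNReal.ofReal_pos.2 hB).ne' ENNReal.ofReal_ne_top (ε := ENNReal.ofReal B)
  refine h1.trans (h2.trans ?_)
  rw [ENNReal.ofReal_div_of_pos hB]
  gcongr

open Classical in
theorem qlm (hG : GucStmt) (hL : Pool.Agent.LE.QY.LocStmt) (hM : Pool.Agent.LE.QY.MazStmt)
    (hS : Pool.Agent.LE.QY.SmzStmt) : QlmStmt := by
  intro d a ε hd ha hε
  obtain ⟨θ₁, c₁, hθ₁, hc₁, hc₁', h1⟩ := hL d a hd ha
  obtain ⟨θ₂, c₂, hθ₂, hc₂, hc₂', h2⟩ := hM d a (1 / 500) hd ha (by norm_num) (by norm_num)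
  obtain ⟨θ₃, c₃, hθ₃, hc₃, hc₃', h3⟩ := hS d a (1 / 500) hd ha (by norm_num) (by norm_num)
  obtain ⟨C, hC, h4⟩ := hG d hd
  have hC0 : 0 < C := by linarith
  obtain ⟨e1, he1, k1⟩ := small_pow θ₁ (min (ε / 2) (ε / 3)) hθ₁ (by positivity)
  obtain ⟨e2, he2, k2⟩ := small_pow (1 / 2) (ε / 2 / (C * (1 / c₁) ^ (1 / 4 : ℝ))) (by norm_num)
    (by positivity)
  obtain ⟨e3, he3, k3⟩ := small_pow θ₂ (ε / 3 * ε) hθ₂ (by positivity)
  obtain ⟨e4, he4, k4⟩ := small_pow (1 / 500) (ε / 3 * ε / 4) (by norm_num) (by positivity)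
  refine ⟨min (1 / 2) (min (min c₁ (min c₂ c₃)) (min (min e1 e2) (min e3 e4))),
    min θ₁ (min θ₂ θ₃), by positivity, (min_le_left _ _).trans (by norm_num), by positivity, ?_⟩
  intro σ E T hσ hs hE hT1 hT2
  simp only [le_min_iff] at hs
  obtain ⟨hs0, ⟨hs1, hs2, hs3⟩, ⟨hs4, hs5⟩, hs6, hs7⟩ := hs
  obtain ⟨s, hsd⟩ : ∃ s : ℝ, |σ| = s := ⟨_, rfl⟩
  rw [hsd] at hs0 hs1 hs2 hs3 hs4 hs5 hs6 hs7 hT1 hT2 ⊢
  have hs : 0 < s := by rw [← hsd]; exact abs_pos.2 hσ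
  have hsle : s ≤ 1 := by linarith
  have hσ2 : ‖(σ : ℂ) ^ 2‖ = s ^ 2 := by
    rw [norm_pow, Complex.norm_real, Real.norm_eq_abs, hsd]
  have hT : 1 ≤ T := by
    refine le_trans ?_ hT1
    exact Real.one_le_rpow_of_pos_of_le_one_of_nonpos hs hsle (by norm_num)
  have hT0 : 0 < T := by linarith
  have hTm : ∀ θ' : ℝ, min θ₁ (min θ₂ θ₃) ≤ θ' → T ≤ Real.exp (s ^ (-θ')) := fun θ' h =>
    hT2.trans (Real.exp_le_exp.2 (Real.rpow_le_rpow_of_exponent_ge hs hsle (by linarith)))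
  have hTi : 0 < 1 / T := by positivity
  have hz : (⟨E, 1 / T⟩ : ℂ) = zz (1 / T) E := (zz_mk _ _).symm
  have hrh : ∀ (V : Site d → ℝ) (x : Site d), Pool.Agent.LE.QY.rh V T E x =
      1 / T * ‖G V (zz (1 / T) E) (del 0) x‖ ^ 2 := by
    intro V x
    unfold Pool.Agent.LE.QY.rh
    rw [hz]
    ring
  have hmr : ∀ x : Site d, Measurable fun V : Site d → ℝ => Pool.Agent.LE.QY.rh V T E x := by
    intro x
    simp only [hrh]
    exact (((H76.measG E hTi x).norm).pow_const 2).const_mul _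
  obtain ⟨ρ, hρ⟩ : ∃ ρ : ℝ, ρ = s ^ (1 / 500 - 1 : ℝ) * Real.sqrt T := ⟨_, rfl⟩
  obtain ⟨ρ', hρ'⟩ : ∃ ρ' : ℝ, ρ' = s ^ (-(1 / 500) - 1 : ℝ) * Real.sqrt T := ⟨_, rfl⟩
  have hρ0 : 0 ≤ ρ := by rw [hρ]; positivity
  have hρ2 : 2 ≤ ρ' := by
    have q1 : (2 : ℝ) ≤ s ^ (-1 : ℝ) := by
      rw [Real.rpow_neg_one, ← one_div, le_div_iff₀ hs]
      linarith
    have q2 : s ^ (-1 : ℝ) ≤ s ^ (-(1 / 500) - 1 : ℝ) :=
      Real.rpow_le_rpow_of_exponent_ge hs hsle (by norm_num)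
    have q3 : (1 : ℝ) ≤ Real.sqrt T := Real.one_le_sqrt.2 hT
    rw [hρ']
    nlinarith
  rw [← hρ, ← hρ']
  -- the three bad sets
  have hsub : {V : Site d → ℝ | BadZM V E (1 / T) (g0 d (zz (1 / T) E)) ε ⌊ρ⌋₊ ⌊ρ'⌋₊} ⊆
      {V | ε < ‖G V (zz (1 / T) E) (del 0) 0 - g0 d (zz (1 / T) E)‖} ∪
      ({V | ε < 1 / T * mas (G V (zz (1 / T) E) (del 0)) (fun x => sd 0 x < ⌊ρ⌋₊)} ∪
      {V | ε < 1 / T * mas (G V (zz (1 / T) E) (del 0)) (fun x => ⌊ρ'⌋₊ ≤ sd 0 x)}) := by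
    intro V hV
    rcases hV with hV | hV | hV
    · exact Or.inl hV
    · refine Or.inr (Or.inl ?_)
      refine lt_of_lt_of_eq hV ?_
      unfold mas
      congr 1
    · refine Or.inr (Or.inr ?_)
      refine lt_of_lt_of_eq hV ?_
      unfold mas
      congr 1
  refine (measure_mono hsub).trans ((measure_union_le _ _).trans
    ((add_le_add le_rfl (measure_union_le _ _)).trans ?_))
  have hA1 : PP d (gl σ) {V : Site d → ℝ | ε < ‖G V (zz (1 / T) E) (del 0) 0 -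
      g0 d (zz (1 / T) E)‖} ≤ ENNReal.ofReal (ε / 3) := by
    obtain ⟨m, g1, g2, -, g4⟩ := h1 σ E T hσ (by rw [hsd]; exact hs1) hE
      (by rw [hsd]; exact hT1) (by rw [hsd]; exact hTm θ₁ (min_le_left _ _))
    have g5 := g4 0
    rw [hsd] at g5
    have hexp : Real.exp (-(s ^ (-θ₁))) ≤ ε / 3 := by
      have q1 : s ^ (-θ₁) ≤ Real.exp (s ^ (-θ₁)) := by
        have := Real.add_one_le_exp (s ^ (-θ₁))
        linarith
      have q2 : 0 < s ^ (-θ₁) := by positivity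
      rw [Real.exp_neg]
      have q3 : (Real.exp (s ^ (-θ₁)))⁻¹ ≤ (s ^ (-θ₁))⁻¹ := inv_anti₀ q2 q1
      rw [Real.rpow_neg hs.le, inv_inv] at q3
      rw [Real.rpow_neg hs.le]
      exact q3.trans ((k1 s hs hs4).trans (min_le_right _ _))
    refine le_trans (measure_mono ?_) (g5.trans (ENNReal.ofReal_le_ofReal hexp))
    intro V hV hcon
    have q1 := hcon 0 0 (by rw [sd_self]; simpa using hT0.le) (by rw [sd_self]; simpa using hT0.le)
    rw [hz] at q1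
    have hmn : (0 : ℝ) < m.im := lt_of_lt_of_le hc₁ g1
    have hw : ‖(σ : ℂ) ^ 2 * m‖ ≤ s ^ 2 * (1 / c₁) := by
      rw [norm_mul, hσ2]
      exact mul_le_mul_of_nonneg_left g2 (by positivity)
    have hzi : 0 < (zz (1 / T) E).im := by
      rw [zz_mk]
      exact hTi
    have hzi' : 0 < (zz (1 / T) E + (σ : ℂ) ^ 2 * m).im := by
      have : ((σ : ℂ) ^ 2 * m).im = σ ^ 2 * m.im := by
        rw [← Complex.ofReal_pow, Complex.im_ofReal_mul]
      rw [Complex.add_im, this]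
      positivity
    have q2 := (h4 _ _ hzi' hzi).2
    rw [add_sub_cancel_left] at q2
    have q3 : C * ‖(σ : ℂ) ^ 2 * m‖ ^ (1 / 4 : ℝ) ≤ ε / 2 := by
      have q4 : ‖(σ : ℂ) ^ 2 * m‖ ^ (1 / 4 : ℝ) ≤ (s ^ 2 * (1 / c₁)) ^ (1 / 4 : ℝ) :=
        Real.rpow_le_rpow (norm_nonneg _) hw (by norm_num)
      have q5 : (s ^ 2 * (1 / c₁)) ^ (1 / 4 : ℝ) = s ^ (1 / 2 : ℝ) * (1 / c₁) ^ (1 / 4 : ℝ) := by
        rw [Real.mul_rpow (by positivity) (by positivity), ← Real.rpow_natCast s 2,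
          ← Real.rpow_mul hs.le]
        norm_num
      have q6 := k2 s hs hs5
      rw [le_div_iff₀ (by positivity)] at q6
      calc C * ‖(σ : ℂ) ^ 2 * m‖ ^ (1 / 4 : ℝ) ≤ C * (s ^ 2 * (1 / c₁)) ^ (1 / 4 : ℝ) := by gcongr
        _ = s ^ (1 / 2 : ℝ) * (C * (1 / c₁) ^ (1 / 4 : ℝ)) := by rw [q5]; ring
        _ ≤ ε / 2 := q6
    have q7 : s ^ θ₁ ≤ ε / 2 := (k1 s hs hs4).trans (min_le_left _ _)
    have q8 : ‖G V (zz (1 / T) E) (del 0) 0 - g0 d (zz (1 / T) E)‖ ≤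
        ‖G V (zz (1 / T) E) (del 0) 0 - g0 d (zz (1 / T) E + (σ : ℂ) ^ 2 * m)‖ +
        ‖g0 d (zz (1 / T) E + (σ : ℂ) ^ 2 * m) - g0 d (zz (1 / T) E)‖ := by
      have := norm_add_le (G V (zz (1 / T) E) (del 0) 0 - g0 d (zz (1 / T) E + (σ : ℂ) ^ 2 * m))
        (g0 d (zz (1 / T) E + (σ : ℂ) ^ 2 * m) - g0 d (zz (1 / T) E))
      rwa [sub_add_sub_cancel] at this
    have q9 : ε < ‖G V (zz (1 / T) E) (del 0) 0 - g0 d (zz (1 / T) E)‖ := hV
    have q10 : ‖G V (zz (1 / T) E) (del 0) 0 - g0 d (zz (1 / T) E + (σ : ℂ) ^ 2 * m)‖ ≤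
        s ^ θ₁ := by
      exact q1
    linarith
  have hA2 : PP d (gl σ) {V : Site d → ℝ | ε < 1 / T * mas (G V (zz (1 / T) E) (del 0))
      (fun x => sd 0 x < ⌊ρ⌋₊)} ≤ ENNReal.ofReal (ε / 3) := by
    have g := h2 σ E T hσ (by rw [hsd]; exact hs2) hE (by rw [hsd]; exact hT1)
      (by rw [hsd]; exact hTm θ₂ ((min_le_right _ _).trans (min_le_left _ _)))
    rw [hsd, ← hρ] at g
    refine (markov (Measurable.tsum fun x => ?_) hε g fun V hV => ?_).trans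
      (ENNReal.ofReal_le_ofReal ?_)
    · by_cases hx : (sd 0 x : ℝ) ≤ ρ
      · simp only [if_pos hx]
        exact (hmr x).ennreal_ofReal
      · simp only [if_neg hx]
        exact measurable_const
    · have hV' : ε < 1 / T * mas (G V (zz (1 / T) E) (del 0)) (fun x => sd 0 x < ⌊ρ⌋₊) := hV
      refine (ENNReal.ofReal_le_ofReal hV'.le).trans ?_
      rw [← ofReal_mas' _ _ hTi.le]
      refine ENNReal.tsum_le_tsum fun x => ?_
      by_cases hx : sd 0 x < ⌊ρ⌋₊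
      · have hx2 : (sd 0 x : ℝ) ≤ ρ := by
          have : ((sd 0 x : ℕ) : ℝ) ≤ (⌊ρ⌋₊ : ℝ) := by exact_mod_cast hx.le
          exact this.trans (Nat.floor_le hρ0)
        rw [if_pos hx, if_pos hx2, hrh]
      · rw [if_neg hx]
        exact zero_le
    · rw [div_le_iff₀ hε]
      exact k3 s hs hs6
  have hA3 : PP d (gl σ) {V : Site d → ℝ | ε < 1 / T * mas (G V (zz (1 / T) E) (del 0))
      (fun x => ⌊ρ'⌋₊ ≤ sd 0 x)} ≤ ENNReal.ofReal (ε / 3) := by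
    have g := h3 σ E T hσ (by rw [hsd]; exact hs3) hE (by rw [hsd]; exact hT1)
      (by rw [hsd]; exact hTm θ₃ ((min_le_right _ _).trans (min_le_right _ _)))
    rw [hsd] at g
    have hB : 0 < ρ' ^ 2 / 4 * ε := by positivity
    refine (markov (Measurable.tsum fun x => ?_) hB g fun V hV => ?_).trans
      (ENNReal.ofReal_le_ofReal ?_)
    · exact ((hmr x).const_mul _).ennreal_ofReal
    · have hV' : ε < 1 / T * mas (G V (zz (1 / T) E) (del 0)) (fun x => ⌊ρ'⌋₊ ≤ sd 0 x) := hV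
      have hV2 : ρ' ^ 2 / 4 * ε ≤ ρ' ^ 2 / 4 * (1 / T) *
          mas (G V (zz (1 / T) E) (del 0)) (fun x => ⌊ρ'⌋₊ ≤ sd 0 x) := by
        rw [mul_assoc]
        exact mul_le_mul_of_nonneg_left hV'.le (by positivity)
      refine (ENNReal.ofReal_le_ofReal hV2).trans ?_
      rw [← ofReal_mas' _ _ (by positivity)]
      refine ENNReal.tsum_le_tsum fun x => ?_
      by_cases hx : ⌊ρ'⌋₊ ≤ sd 0 x
      · rw [if_pos hx, hrh]
        refine ENNReal.ofReal_le_ofReal ?_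
        have q1 : ρ' / 2 ≤ (sd 0 x : ℝ) := by
          have q2 : ρ' < (⌊ρ'⌋₊ : ℝ) + 1 := Nat.lt_floor_add_one ρ'
          have q3 : (⌊ρ'⌋₊ : ℝ) ≤ (sd 0 x : ℝ) := by exact_mod_cast hx
          linarith
        have q4 : ρ' ^ 2 / 4 ≤ (sd 0 x : ℝ) ^ 2 := by
          have q5 := pow_le_pow_left₀ (by linarith : (0 : ℝ) ≤ ρ' / 2) q1 2
          have q6 : (ρ' / 2) ^ 2 = ρ' ^ 2 / 4 := by ring
          rwa [q6] at q5
        rw [mul_assoc]
        exact mul_le_mul_of_nonneg_right q4 (by positivity)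
      · rw [if_neg hx]
        exact zero_le
    · have q1 : ρ' ^ 2 = s ^ (-(1 / 250) - 2 : ℝ) * T := by
        rw [hρ', mul_pow, Real.sq_sqrt hT0.le, ← Real.rpow_natCast, ← Real.rpow_mul hs.le]
        norm_num
      have q2 : s ^ (-2 - 1 / 500 : ℝ) = s ^ (1 / 500 : ℝ) * s ^ (-(1 / 250) - 2 : ℝ) := by
        rw [← Real.rpow_add hs]
        norm_num
      rw [div_le_iff₀ hB, q1, q2]
      have q3 := k4 s hs hs7
      have q4 : 0 < s ^ (-(1 / 250) - 2 : ℝ) * T := by positivity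
      have q5 := mul_le_mul_of_nonneg_right q3 q4.le
      calc s ^ (1 / 500 : ℝ) * s ^ (-(1 / 250) - 2 : ℝ) * T =
            s ^ (1 / 500 : ℝ) * (s ^ (-(1 / 250) - 2 : ℝ) * T) := by ring
        _ ≤ ε / 3 * ε / 4 * (s ^ (-(1 / 250) - 2 : ℝ) * T) := q5
        _ = ε / 3 * (s ^ (-(1 / 250) - 2 : ℝ) * T / 4 * ε) := by ring
  refine (add_le_add hA1 (add_le_add hA2 hA3)).trans (le_of_eq ?_)
  rw [← ENNReal.ofReal_add (by positivity) (by positivity),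
    ← ENNReal.ofReal_add (by positivity) (by positivity)]
  congr 1
  ring

end Pool.Agent.QDA.H30
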