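import Pool.Agent.Helper30_QDA.Qlm
import Pool.Agent.Helper54_LQY.All

/-!
# QDA, row QLM: the lower range, assembled
-/

set_option autoImplicit false

namespace Pool.Agent.QDA.H30

theorem qlmT (h : GucStmt) : QlmStmt :=
  qlm h Pool.Agent.LE.QY.H54.locT Pool.Agent.LE.QY.H54.mazT Pool.Agent.LE.QY.H54.smzT

end Pool.Agent.QDA.H30
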