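import Pool.Agent.QDA.Stmts

/-!
# QDA: the upper form bound and large distances (row UPF, helper30)
-/

set_option autoImplicit false

open scoped BigOperators

noncomputable section

namespace Pool.Agent.QDA.H30

open Pool.Agent.LTG (Tor Bd sT tT bon)
open Pool.Agent.ANP.H61 (cd sd cd_self cd_comm cd_tri cd_le le_sd)

variable {d M : ℕ} [NeZero M]

theorem cd_one (a : ZMod M) : cd (a + 1) a ≤ 1 := by
  have := cd_le (a + 1) a 1 (by push_cast; ring)
  simpa using this

theorem cd_step (a b : ZMod M) : cd (a + 1) b ≤ cd a b + 1 ∧ cd a b ≤ cd (a + 1) b + 1 := by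
  have h1 := cd_one a
  have h2 := cd_tri (a + 1) a b
  have h3 := cd_tri a (a + 1) b
  rw [cd_comm a (a + 1)] at h3
  omega

/-- the tent -/
def tn (R : ℕ) (m a : ZMod M) : ℝ := ((R - cd a m : ℕ) : ℝ)

theorem tn_step (R : ℕ) (m a : ZMod M) :
    (tn R m (a + 1) - tn R m a) ^ 2 ≤ if cd a m ≤ R then 1 else 0 := by
  obtain ⟨h1, h2⟩ := cd_step a m
  unfold tn
  by_cases h : cd a m ≤ R
  · rw [if_pos h]
    have h3 : R - cd (a + 1) m ≤ R - cd a m + 1 := by omega
    have h4 : R - cd a m ≤ R - cd (a + 1) m + 1 := by omega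
    have h5 : ((R - cd (a + 1) m : ℕ) : ℝ) ≤ ((R - cd a m : ℕ) : ℝ) + 1 := by exact_mod_cast h3
    have h6 : ((R - cd a m : ℕ) : ℝ) ≤ ((R - cd (a + 1) m : ℕ) : ℝ) + 1 := by exact_mod_cast h4
    rw [sq_le_one_iff_abs_le_one, abs_le]
    constructor <;> linarith
  · rw [if_neg h]
    have h3 : R - cd a m = 0 := by omega
    have h4 : R - cd (a + 1) m = 0 := by omega
    rw [h3, h4]
    simp

/-- the number of sites near a site, from above -/
theorem ball_le (a : ZMod M) (R : ℕ) :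
    ((Finset.univ.filter fun m : ZMod M => cd a m ≤ R).card : ℝ) ≤ 2 * R + 1 := by
  have hsub : (Finset.univ.filter fun m : ZMod M => cd a m ≤ R) ⊆
      (Finset.Icc (-(R : ℤ)) R).image fun k : ℤ => a - (k : ZMod M) := by
    intro m hm
    have h1 := (Finset.mem_filter.1 hm).2
    obtain ⟨k, hk, hk'⟩ := ANP.H61.exists_int a m
    refine Finset.mem_image.2 ⟨k, ?_, ?_⟩
    · rw [Finset.mem_Icc]
      omega
    · rw [← hk]
      ring
  have h2 := (Finset.card_le_card hsub).trans Finset.card_image_le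
  rw [Int.card_Icc] at h2
  have h3 : (Finset.univ.filter fun m : ZMod M => cd a m ≤ R).card ≤ 2 * R + 1 := by omega
  exact_mod_cast h3

/-- from below -/
theorem ball_ge (a : ZMod M) (t : ℕ) (ht : t + 1 ≤ M) :
    t + 1 ≤ (Finset.univ.filter fun m : ZMod M => cd a m ≤ t).card := by
  have hsub : (Finset.range (t + 1)).image (fun k : ℕ => a + (k : ZMod M)) ⊆
      Finset.univ.filter fun m : ZMod M => cd a m ≤ t := by
    intro m hm
    obtain ⟨k, hk, rfl⟩ := Finset.mem_image.1 hm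
    refine Finset.mem_filter.2 ⟨Finset.mem_univ _, ?_⟩
    have h1 := cd_le a (a + (k : ZMod M)) (-(k : ℤ)) (by push_cast; ring)
    have h2 := Finset.mem_range.1 hk
    rw [Int.natAbs_neg, Int.natAbs_natCast] at h1
    omega
  refine le_trans (le_of_eq ?_) (Finset.card_le_card hsub)
  rw [Finset.card_image_of_injOn, Finset.card_range]
  intro k hk l hl hkl
  have hk' := Finset.mem_range.1 (Finset.mem_coe.1 hk)
  have hl' := Finset.mem_range.1 (Finset.mem_coe.1 hl)
  have h1 : (k : ZMod M) = (l : ZMod M) := add_left_cancel hkl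
  have h2 := congrArg ZMod.val h1
  rwa [ZMod.val_natCast, ZMod.val_natCast, Nat.mod_eq_of_lt (by omega),
    Nat.mod_eq_of_lt (by omega)] at h2

theorem cd_half (a b : ZMod M) : cd a b ≤ M / 2 := ZMod.natAbs_valMinAbs_le _

theorem comm3 {I X Y : Type} [Fintype I] [Fintype X] [Fintype Y] {F : I → X → Y → ℝ}
    {S : X → Y → ℝ} (h : ∀ x y, S x y = ∑ i, F i x y) :
    ∑ i, ∑ x, ∑ y, F i x y = ∑ x, ∑ y, S x y := by
  rw [Finset.sum_comm]
  refine Finset.sum_congr rfl fun x _ => ?_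
  rw [Finset.sum_comm]
  exact Finset.sum_congr rfl fun y _ => (h x y).symm

/-- the energy of a tent -/
theorem bon_tent (R : ℕ) (i : Fin d) (m : ZMod M) :
    bon sT tT (fun _ => 1) (fun x : Tor d M => tn R m (x i)) ≤
      ∑ x : Tor d M, if cd (x i) m ≤ R then 1 else 0 := by
  unfold bon
  rw [Fintype.sum_prod_type, Finset.sum_comm]
  refine Finset.sum_le_sum fun x _ => ?_
  have h1 : ∀ k : Fin d, 1 * (tn R m ((tT (k, x) : Tor d M) i) - tn R m ((sT (k, x) : Tor d M) i)) ^ 2 ≤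
      if k = i then (if cd (x i) m ≤ R then 1 else 0) else 0 := by
    intro k
    unfold tT sT
    by_cases hk : k = i
    · subst hk
      rw [if_pos rfl, one_mul]
      simp only [Pi.add_apply, Pi.single_eq_same]
      exact tn_step R m (x k)
    · rw [if_neg hk]
      simp only [Pi.add_apply]
      rw [Pi.single_eq_of_ne (Ne.symm hk), add_zero, sub_self]
      simp
  refine (Finset.sum_le_sum fun k _ => h1 k).trans (le_of_eq ?_)
  rw [Finset.sum_ite_eq' Finset.univ i, if_pos (Finset.mem_univ i)]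

/-- the energy of all tents of one coordinate -/
theorem bon_tents (R : ℕ) (i : Fin d) :
    ∑ m : ZMod M, bon sT tT (fun _ => 1) (fun x : Tor d M => tn R m (x i)) ≤
      (M : ℝ) ^ d * (2 * R + 1) := by
  refine (Finset.sum_le_sum fun m _ => bon_tent R i m).trans ?_
  rw [Finset.sum_comm]
  have h1 : ∀ x : Tor d M, ∑ m : ZMod M, (if cd (x i) m ≤ R then (1 : ℝ) else 0) ≤ 2 * R + 1 := by
    intro x
    rw [← Finset.sum_filter, Finset.sum_const, nsmul_eq_mul, mul_one]
    exact ball_le (x i) R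
  refine (Finset.sum_le_sum fun x _ => h1 x).trans (le_of_eq ?_)
  rw [Finset.sum_const, nsmul_eq_mul, Finset.card_univ]
  congr 1
  rw [Fintype.card_fun, Fintype.card_fin, ZMod.card]
  push_cast
  rfl

/-- the tents separate far sites -/
theorem tent_sep {R : ℕ} (hR : 1 ≤ R) (x y : Tor d M) (h : R ≤ sd x y) :
    (R : ℝ) ^ 3 / 16 ≤ ∑ i : Fin d, ∑ m : ZMod M, (tn R m (x i) - tn R m (y i)) ^ 2 := by
  obtain ⟨i, hi⟩ : ∃ i, R ≤ cd (x i) (y i) := by
    by_contra hc
    push Not at hc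
    have : sd x y < R := by
      unfold sd
      rw [Finset.sup_lt_iff (by show 0 < R; omega)]
      exact fun i _ => hc i
    omega
  have hM := cd_half (x i) (y i)
  have h1 : ∑ m : ZMod M, (tn R m (x i) - tn R m (y i)) ^ 2 ≤
      ∑ i : Fin d, ∑ m : ZMod M, (tn R m (x i) - tn R m (y i)) ^ 2 :=
    Finset.single_le_sum (f := fun i => ∑ m : ZMod M, (tn R m (x i) - tn R m (y i)) ^ 2)
      (fun i _ => Finset.sum_nonneg fun m _ => sq_nonneg _) (Finset.mem_univ i)
  refine le_trans ?_ h1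
  set t := R / 4 with ht
  have htR : 4 * t ≤ R := by omega
  have h2 := ball_ge (x i) t (by omega)
  have h3 : ∀ m ∈ Finset.univ.filter (fun m : ZMod M => cd (x i) m ≤ t),
      ((R : ℝ) / 2) ^ 2 ≤ (tn R m (x i) - tn R m (y i)) ^ 2 := by
    intro m hm
    have h4 := (Finset.mem_filter.1 hm).2
    have h5 := cd_tri (x i) m (y i)
    rw [cd_comm m (y i)] at h5
    have h6 : R - t ≤ R - cd (x i) m := by omega
    have h7 : R - cd (y i) m ≤ t := by omega
    have h8 : ((R - t : ℕ) : ℝ) = R - t := by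
      push_cast [Nat.cast_sub (show t ≤ R by omega)]
      ring
    have h9 : (R : ℝ) - t ≤ tn R m (x i) := by
      rw [← h8]
      unfold tn
      exact_mod_cast h6
    have h10 : tn R m (y i) ≤ t := by
      unfold tn
      exact_mod_cast h7
    have h11 : 4 * (t : ℝ) ≤ R := by exact_mod_cast htR
    exact pow_le_pow_left₀ (by positivity) (by linarith) 2
  have h4 : (R : ℝ) / 4 ≤ ((Finset.univ.filter fun m : ZMod M => cd (x i) m ≤ t).card : ℝ) := by
    have h5 : R ≤ 4 * (Finset.univ.filter fun m : ZMod M => cd (x i) m ≤ t).card := by omega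
    have h6 : (R : ℝ) ≤ 4 * ((Finset.univ.filter fun m : ZMod M => cd (x i) m ≤ t).card : ℝ) := by
      exact_mod_cast h5
    linarith
  calc (R : ℝ) ^ 3 / 16 = (R : ℝ) / 4 * ((R : ℝ) / 2) ^ 2 := by ring
    _ ≤ ((Finset.univ.filter fun m : ZMod M => cd (x i) m ≤ t).card : ℝ) * ((R : ℝ) / 2) ^ 2 :=
        mul_le_mul_of_nonneg_right h4 (by positivity)
    _ = ∑ _m ∈ Finset.univ.filter (fun m : ZMod M => cd (x i) m ≤ t), ((R : ℝ) / 2) ^ 2 := by
        rw [Finset.sum_const, nsmul_eq_mul]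
    _ ≤ ∑ m ∈ Finset.univ.filter (fun m : ZMod M => cd (x i) m ≤ t),
          (tn R m (x i) - tn R m (y i)) ^ 2 := Finset.sum_le_sum h3
    _ ≤ _ := Finset.sum_le_sum_of_subset_of_nonneg (Finset.filter_subset _ _)
        fun m _ _ => sq_nonneg _

/-- UPF -/
theorem upf : UpfStmt := by
  intro d hd
  have hd' : (1 : ℝ) ≤ d := by exact_mod_cast hd
  refine ⟨96 * d, by linarith, ?_⟩
  intro M hM c B hc hB hU R hR
  have hR' : (1 : ℝ) ≤ R := by exact_mod_cast hR
  -- upper
  have h1 : ∑ i : Fin d, ∑ m : ZMod M, 1 / 2 * ∑ x, ∑ y, c x y *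
      (tn R m (x i) - tn R m (y i)) ^ 2 ≤ B * (d * ((M : ℝ) ^ d * (2 * R + 1))) := by
    have h2 : ∀ i : Fin d, ∑ m : ZMod M, 1 / 2 * ∑ x, ∑ y, c x y *
        (tn R m (x i) - tn R m (y i)) ^ 2 ≤ B * ((M : ℝ) ^ d * (2 * R + 1)) := by
      intro i
      refine (Finset.sum_le_sum fun m _ => hU fun x => tn R m (x i)).trans ?_
      rw [← Finset.mul_sum]
      exact mul_le_mul_of_nonneg_left (bon_tents R i) hB
    refine (Finset.sum_le_sum fun i _ => h2 i).trans (le_of_eq ?_)
    rw [Finset.sum_const, Finset.card_univ, Fintype.card_fin, nsmul_eq_mul]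
    ring
  -- lower
  have h3 : (R : ℝ) ^ 3 / 32 * ∑ x, ∑ y, (if R ≤ sd x y then c x y else 0) ≤
      ∑ i : Fin d, ∑ m : ZMod M, 1 / 2 * ∑ x, ∑ y, c x y *
        (tn R m (x i) - tn R m (y i)) ^ 2 := by
    have h4 : ∑ i : Fin d, ∑ m : ZMod M, 1 / 2 * ∑ x, ∑ y, c x y *
        (tn R m (x i) - tn R m (y i)) ^ 2 = 1 / 2 * ∑ x : Tor d M, ∑ y : Tor d M, c x y *
          ∑ i : Fin d, ∑ m : ZMod M, (tn R m (x i) - tn R m (y i)) ^ 2 := by
      have e1 : ∀ i : Fin d, ∑ m : ZMod M, 1 / 2 * ∑ x, ∑ y, c x y *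
          (tn R m (x i) - tn R m (y i)) ^ 2 = ∑ x : Tor d M, ∑ y : Tor d M,
            1 / 2 * (c x y * ∑ m : ZMod M, (tn R m (x i) - tn R m (y i)) ^ 2) := by
        intro i
        refine Eq.trans ?_ (comm3 (F := fun (m : ZMod M) (x y : Tor d M) =>
          1 / 2 * (c x y * (tn R m (x i) - tn R m (y i)) ^ 2)) fun x y => ?_)
        · refine Finset.sum_congr rfl fun m _ => ?_
          simp only [Finset.mul_sum]
        · rw [Finset.mul_sum, Finset.mul_sum]
      rw [Finset.sum_congr rfl fun i _ => e1 i]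
      refine Eq.trans (comm3 (F := fun (i : Fin d) (x y : Tor d M) =>
        1 / 2 * (c x y * ∑ m : ZMod M, (tn R m (x i) - tn R m (y i)) ^ 2))
        (S := fun x y => 1 / 2 * (c x y * ∑ i : Fin d, ∑ m : ZMod M,
          (tn R m (x i) - tn R m (y i)) ^ 2)) fun x y => ?_) ?_
      · rw [Finset.mul_sum, Finset.mul_sum]
      · simp only [Finset.mul_sum]
    rw [h4, Finset.mul_sum, Finset.mul_sum]
    refine Finset.sum_le_sum fun x _ => ?_
    rw [Finset.mul_sum, Finset.mul_sum]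
    refine Finset.sum_le_sum fun y _ => ?_
    split
    · rename_i h
      have h5 := mul_le_mul_of_nonneg_left (tent_sep hR x y h) (hc x y)
      linarith
    · have h5 : 0 ≤ ∑ i : Fin d, ∑ m : ZMod M, (tn R m (x i) - tn R m (y i)) ^ 2 :=
        Finset.sum_nonneg fun i _ => Finset.sum_nonneg fun m _ => sq_nonneg _
      have h6 := mul_nonneg (hc x y) h5
      linarith
  have h4 := h3.trans h1
  rw [le_div_iff₀ (by positivity)]
  have h5 : (2 * (R : ℝ) + 1) ≤ 3 * R := by linarith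
  have h6 : B * (d * ((M : ℝ) ^ d * (2 * R + 1))) ≤ B * (d * ((M : ℝ) ^ d * (3 * R))) := by
    gcongr
  have h7 := h4.trans h6
  have hR0 : (0 : ℝ) < R := by linarith
  set S := ∑ x : Tor d M, ∑ y : Tor d M, (if R ≤ sd x y then c x y else 0) with hS
  have h8 : (R : ℝ) / 32 * (S * (R : ℝ) ^ 2) ≤ (R : ℝ) / 32 * (96 * d * B * (M : ℝ) ^ d) := by
    calc (R : ℝ) / 32 * (S * (R : ℝ) ^ 2) = (R : ℝ) ^ 3 / 32 * S := by ring
      _ ≤ B * (d * ((M : ℝ) ^ d * (3 * R))) := h7
      _ = _ := by ring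
  exact le_of_mul_le_mul_left h8 (by positivity)

end Pool.Agent.QDA.H30
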